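import Mathlib

/-!
Strongly equistable graphs are not closed under substitution.

`G` (28 vertices) is the complement of the line graph of a triangle-free graph on 17 vertices,
with one vertex doubled (true twins `0`, `1`); `H` is the complete graph on two vertices.
-/

namespace Pool.Agent.Results.MP_89a31a_co.NotClosed

/-- `S` is an inclusion-wise maximal stable set of `G`. -/
def IsMaxStable {V : Type} (G : SimpleGraph V) (S : Finset V) : Prop :=
  Maximal (fun X : Finset V => G.IsIndepSet (X : Set V)) S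

/-- Strongly equistable graphs (Mahadev, Peled, Sun). -/
def StronglyEquistable {V : Type} (G : SimpleGraph V) : Prop :=
  ∀ T : Finset V, T.Nonempty → ¬ IsMaxStable G T → ∀ γ : ℝ, γ ≤ 1 →
    ∃ φ : V → ℝ, (∀ v, 0 < φ v) ∧ (∀ S : Finset V, IsMaxStable G S → ∑ v ∈ S, φ v = 1) ∧
      ∑ v ∈ T, φ v ≠ γ

/-- Adjacency of the graph obtained from `G` by substituting `H` for the vertex `v`. -/
def substAdj {V W : Type} (G : SimpleGraph V) (v : V) (H : SimpleGraph W) :
    {x : V // x ≠ v} ⊕ W → {x : V // x ≠ v} ⊕ W → Prop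
  | Sum.inl x, Sum.inl y => G.Adj x.1 y.1
  | Sum.inl x, Sum.inr _ => G.Adj x.1 v
  | Sum.inr _, Sum.inl y => G.Adj v y.1
  | Sum.inr x, Sum.inr y => H.Adj x y

/-- The graph obtained from `G` by substituting `H` for the vertex `v`. -/
def subst {V W : Type} (G : SimpleGraph V) (v : V) (H : SimpleGraph W) :
    SimpleGraph ({x : V // x ≠ v} ⊕ W) where
  Adj := substAdj G v H
  symm := ⟨fun p q h => by
    cases p <;> cases q <;> exact SimpleGraph.Adj.symm h⟩
  loopless := ⟨fun p h => by
    cases p <;> exact SimpleGraph.Adj.ne h rfl⟩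

theorem isMaxStable_iff {V : Type} [DecidableEq V] (G : SimpleGraph V) (S : Finset V) :
    IsMaxStable G S ↔ (∀ x ∈ S, ∀ y ∈ S, ¬ G.Adj x y) ∧ ∀ x, x ∈ S ∨ ∃ y ∈ S, G.Adj x y := by
  have hind : ∀ X : Finset V, G.IsIndepSet (X : Set V) ↔ ∀ x ∈ X, ∀ y ∈ X, ¬ G.Adj x y := by
    intro X
    constructor
    · intro h x hx y hy hxy
      exact h (Finset.mem_coe.2 hx) (Finset.mem_coe.2 hy) hxy.ne hxy
    · intro h x hx y hy _
      exact h x (Finset.mem_coe.1 hx) y (Finset.mem_coe.1 hy)
  unfold IsMaxStable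
  constructor
  · intro h
    have h1 := (hind S).1 h.prop
    refine ⟨h1, fun x => ?_⟩
    by_contra hc
    push Not at hc
    have h2 : G.IsIndepSet ((insert x S : Finset V) : Set V) := by
      rw [hind]
      intro a ha b hb hab
      rcases Finset.mem_insert.1 ha with ha | ha <;> rcases Finset.mem_insert.1 hb with hb | hb
      · exact hab.ne (ha.trans hb.symm)
      · exact hc.2 b hb (ha ▸ hab)
      · exact hc.2 a ha (hb ▸ hab.symm)
      · exact h1 a ha b hb hab
    have h3 : insert x S ≤ S := h.le_of_ge h2 (Finset.subset_insert x S)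
    exact hc.1 (h3 (Finset.mem_insert_self x S))
  · rintro ⟨h1, h2⟩
    refine ⟨(hind S).2 h1, fun X hX hSX x hx => ?_⟩
    rcases h2 x with h | ⟨y, hy, hxy⟩
    · exact h
    · exact absurd hxy ((hind X).1 hX x hx y (hSX hy))

/-- Backtracking over all sublists, pruned by `ok`. -/
def srch {α : Type} (ok leaf : List α → Bool) : List α → List α → Bool
  | [], l => leaf l
  | x :: xs, l => srch ok leaf xs l && (!(ok (x :: l)) || srch ok leaf xs (x :: l))

theorem srch_sound {α : Type} (ok leaf : List α → Bool) (p : α → Bool) :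
    ∀ xs l : List α, srch ok leaf xs l = true →
      (∀ s : List α, s.Sublist ((xs.filter p).reverse ++ l) → ok s = true) →
      leaf ((xs.filter p).reverse ++ l) = true := by
  intro xs
  induction xs with
  | nil => intro l h _; simpa [srch] using h
  | cons x xs ih =>
    intro l h hs
    simp only [srch, Bool.and_eq_true, Bool.or_eq_true, Bool.not_eq_true'] at h
    by_cases hp : p x = true
    · rw [List.filter_cons_of_pos hp, List.reverse_cons, List.append_assoc,
        List.singleton_append] at hs ⊢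
      have hok := hs (x :: l) (List.sublist_append_right _ _)
      rcases h.2 with h2 | h2
      · rw [hok] at h2; exact absurd h2 (by simp)
      · exact ih _ h2 hs
    · rw [List.filter_cons_of_neg hp] at hs ⊢
      exact ih _ h.1 hs

def masks : List ℕ :=
  [268413694, 268413693, 268391931, 243203847, 268434439, 268432135, 268422919, 268386055,
   268433644, 268426475, 268432092, 268399579, 268406716, 268422587, 268382076, 268384123,
   209518583, 167313407, 66191359, 115605503, 214433791, 160432127, 52428799, 104792055,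
   241631223, 231538687, 194641919, 120848383]

def adj (i j : Fin 28) : Bool := (masks.getD i.val 0).testBit j.val

def G : SimpleGraph (Fin 28) where
  Adj i j := adj i j = true
  symm := ⟨by decide +kernel⟩
  loopless := ⟨by decide +kernel⟩

instance : DecidableRel G.Adj := fun i j => inferInstanceAs (Decidable (adj i j = true))

def w0 (i : Fin 28) : ℕ :=
  [6, 6, 6, 6, 6, 6, 6, 6, 12, 12, 12, 12, 12, 12, 12, 12, 7, 13, 7, 13, 10, 10, 10, 10, 7, 10,
   10, 10].getD i.val 0

def w1 (i : Fin 28) : ℕ :=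
  [438, 438, 1199, 416, 1313, 1235, 482, 244, 1541, 836, 1711, 744, 1553, 1655, 1699, 1747, 1561,
   895, 1296, 1188, 1769, 687, 1504, 980, 733, 1234, 1499, 1206].getD i.val 0

def allv : List (Fin 28) :=
  [0, 1, 2, 3, 4, 5, 6, 7, 8, 9, 10, 11, 12, 13, 14, 15, 16, 17, 18, 19, 20, 21, 22, 23, 24, 25,
   26, 27]

def isDom (l : List (Fin 28)) : Bool := allv.all fun x => l.contains x || l.any (adj x)

def isStab (l : List (Fin 28)) : Bool := l.all fun x => l.all fun y => !(adj x y)

def ok1 (l : List (Fin 28)) : Bool := decide ((l.map w0).sum ≤ 30)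

def leaf1 (l : List (Fin 28)) : Bool :=
  decide ((l.map w1).sum ≠ 123 * (l.map w0).sum) || l.isEmpty || (isStab l && isDom l)

def leaf2 (l : List (Fin 28)) : Bool :=
  !(isDom l) || (decide ((l.map w0).sum = 30) && decide ((l.map w1).sum = 3690))

theorem chk1 : srch ok1 leaf1 allv [] = true := by decide +kernel

theorem chk2 : srch isStab leaf2 allv [] = true := by decide +kernel

theorem mem_allv : ∀ x : Fin 28, x ∈ allv := by decide +kernel

theorem nodup_allv : allv.Nodup := by decide +kernel

def toL (T : Finset (Fin 28)) : List (Fin 28) := (allv.filter fun x => decide (x ∈ T)).reverse ++ []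

theorem mem_toL (T : Finset (Fin 28)) (x : Fin 28) : x ∈ toL T ↔ x ∈ T := by
  unfold toL
  rw [List.append_nil, List.mem_reverse, List.mem_filter, decide_eq_true_iff]
  exact ⟨fun h => h.2, fun h => ⟨mem_allv x, h⟩⟩

theorem sum_toL (T : Finset (Fin 28)) (f : Fin 28 → ℕ) : ((toL T).map f).sum = ∑ v ∈ T, f v := by
  have hn : (toL T).Nodup := by
    unfold toL
    rw [List.append_nil, List.nodup_reverse]
    exact nodup_allv.filter _
  rw [← List.sum_toFinset f hn]
  congr 1
  ext x
  rw [List.mem_toFinset, mem_toL]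

theorem isStab_iff (l : List (Fin 28)) : isStab l = true ↔ ∀ x ∈ l, ∀ y ∈ l, ¬ G.Adj x y := by
  unfold isStab
  rw [List.all_eq_true]
  refine forall₂_congr fun x _ => ?_
  rw [List.all_eq_true]
  refine forall₂_congr fun y _ => ?_
  rw [Bool.not_eq_true', ← Bool.not_eq_true]
  rfl

theorem isDom_iff (l : List (Fin 28)) : isDom l = true ↔ ∀ x, x ∈ l ∨ ∃ y ∈ l, G.Adj x y := by
  unfold isDom
  rw [List.all_eq_true]
  constructor
  · intro h x
    have := h x (mem_allv x)
    rw [Bool.or_eq_true, List.contains_iff_mem, List.any_eq_true] at this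
    exact this
  · intro h x _
    rw [Bool.or_eq_true, List.contains_iff_mem, List.any_eq_true]
    exact h x

theorem max_iff (S : Finset (Fin 28)) :
    IsMaxStable G S ↔ isStab (toL S) = true ∧ isDom (toL S) = true := by
  rw [isMaxStable_iff, isStab_iff, isDom_iff]
  simp only [mem_toL]

theorem max_sum (S : Finset (Fin 28)) (h : IsMaxStable G S) :
    ∑ v ∈ S, w0 v = 30 ∧ ∑ v ∈ S, w1 v = 3690 := by
  rw [max_iff] at h
  have h1 := srch_sound isStab leaf2 (fun x => decide (x ∈ S)) allv [] chk2 (by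
    intro s hs
    rw [isStab_iff]
    intro x hx y hy
    exact (isStab_iff _).1 h.1 x (hs.subset hx) y (hs.subset hy))
  change leaf2 (toL S) = true at h1
  unfold leaf2 at h1
  rw [h.2, sum_toL, sum_toL, Bool.not_true, Bool.false_or, Bool.and_eq_true, decide_eq_true_iff,
    decide_eq_true_iff] at h1
  exact h1

theorem nonmax_sum (T : Finset (Fin 28)) (hT : T.Nonempty) (h : ¬ IsMaxStable G T)
    (h30 : ∑ v ∈ T, w0 v ≤ 30) : ∑ v ∈ T, w1 v ≠ 123 * ∑ v ∈ T, w0 v := by
  have h1 := srch_sound ok1 leaf1 (fun x => decide (x ∈ T)) allv [] chk1 (by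
    intro s hs
    unfold ok1
    rw [decide_eq_true_iff]
    have h2 : (s.map w0).sum ≤ ((toL T).map w0).sum :=
      (hs.map w0).sum_le_sum (fun _ _ => Nat.zero_le _)
    rw [sum_toL] at h2
    exact h2.trans h30)
  change leaf1 (toL T) = true at h1
  unfold leaf1 at h1
  rw [Bool.or_eq_true, Bool.or_eq_true, decide_eq_true_iff, sum_toL, sum_toL, Bool.and_eq_true,
    ← max_iff, List.isEmpty_iff] at h1
  rcases h1 with (h1 | h1) | h1
  · exact h1
  · obtain ⟨x, hx⟩ := hT
    have := (mem_toL T x).2 hx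
    rw [h1] at this
    exact absurd this List.not_mem_nil
  · exact absurd h1 h

theorem w0_pos : ∀ v, 0 < w0 v := by decide +kernel

theorem w1_pos : ∀ v, 0 < w1 v := by decide +kernel

theorem G_se : StronglyEquistable G := by
  intro T hT hm γ hγ
  have e0 : ∀ S : Finset (Fin 28), ∑ v ∈ S, (w0 v : ℝ) / 30 = ((∑ v ∈ S, w0 v : ℕ) : ℝ) / 30 := by
    intro S; rw [Nat.cast_sum, Finset.sum_div]
  have e1 : ∀ S : Finset (Fin 28),
      ∑ v ∈ S, (w1 v : ℝ) / 3690 = ((∑ v ∈ S, w1 v : ℕ) : ℝ) / 3690 := by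
    intro S; rw [Nat.cast_sum, Finset.sum_div]
  by_cases h0 : ((∑ v ∈ T, w0 v : ℕ) : ℝ) / 30 = γ
  · refine ⟨fun v => (w1 v : ℝ) / 3690, fun v => ?_, fun S hS => ?_, ?_⟩
    · have := w1_pos v
      positivity
    · rw [e1, (max_sum S hS).2]; norm_num
    · rw [e1, ← h0]
      have h30 : ∑ v ∈ T, w0 v ≤ 30 := by
        have : ((∑ v ∈ T, w0 v : ℕ) : ℝ) ≤ 30 := by
          rw [← h0, div_le_one (by norm_num)] at hγ
          exact hγ
        exact_mod_cast this
      intro hc
      apply nonmax_sum T hT hm h30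
      have : ((∑ v ∈ T, w1 v : ℕ) : ℝ) = 123 * ((∑ v ∈ T, w0 v : ℕ) : ℝ) := by linarith
      exact_mod_cast this
  · refine ⟨fun v => (w0 v : ℝ) / 30, fun v => ?_, fun S hS => ?_, ?_⟩
    · have := w0_pos v
      positivity
    · rw [e0, (max_sum S hS).1]; norm_num
    · rw [e0]; exact h0

theorem H_se : StronglyEquistable (⊤ : SimpleGraph (Fin 2)) := by
  intro T hT hm γ hγ
  have key : ∀ S : Finset (Fin 2), IsMaxStable (⊤ : SimpleGraph (Fin 2)) S ↔ S.card = 1 := by
    intro S
    rw [isMaxStable_iff]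
    revert S
    decide
  refine ⟨fun _ => 1, fun _ => one_pos, fun S hS => ?_, ?_⟩
  · rw [Finset.sum_const, (key S).1 hS]; norm_num
  · rw [key] at hm
    have h1 : 1 ≤ T.card := hT.card_pos
    have h2 : (2 : ℝ) ≤ T.card := by exact_mod_cast (by omega : 2 ≤ T.card)
    rw [Finset.sum_const, nsmul_eq_mul, mul_one]
    linarith

abbrev V' : Type := {x : Fin 28 // x ≠ 2} ⊕ Fin 2

def L (i : Fin 28) : V' := if h : i = 2 then Sum.inr 0 else Sum.inl ⟨i, h⟩

def R : V' := Sum.inr 1

def G' : SimpleGraph V' := subst G 2 (⊤ : SimpleGraph (Fin 2))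

instance : DecidableRel G'.Adj := fun p q =>
  match p, q with
  | Sum.inl x, Sum.inl y => inferInstanceAs (Decidable (G.Adj x.1 y.1))
  | Sum.inl x, Sum.inr _ => inferInstanceAs (Decidable (G.Adj x.1 2))
  | Sum.inr _, Sum.inl y => inferInstanceAs (Decidable (G.Adj 2 y.1))
  | Sum.inr x, Sum.inr y => inferInstanceAs (Decidable (x ≠ y))

theorem three (φ : V' → ℝ) (hφ : ∀ S : Finset V', IsMaxStable G' S → ∑ v ∈ S, φ v = 1)
    (a b c : V') (hab : a ≠ b) (hac : a ≠ c) (hbc : b ≠ c)
    (h : (∀ x ∈ ({a, b, c} : Finset V'), ∀ y ∈ ({a, b, c} : Finset V'), ¬ G'.Adj x y) ∧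
      ∀ x, x ∈ ({a, b, c} : Finset V') ∨ ∃ y ∈ ({a, b, c} : Finset V'), G'.Adj x y) :
    φ a + φ b + φ c = 1 := by
  have h1 := hφ _ ((isMaxStable_iff G' _).2 h)
  rw [Finset.sum_insert (by simp [hab, hac]), Finset.sum_pair hbc] at h1
  linarith

theorem five (φ : V' → ℝ) (a b c d e : V') (h : [a, b, c, d, e].Nodup) :
    ∑ v ∈ ({a, b, c, d, e} : Finset V'), φ v = φ a + φ b + φ c + φ d + φ e := by
  have h1 := List.sum_toFinset φ h
  simp only [List.toFinset_cons, List.toFinset_nil, List.map_cons, List.map_nil, List.sum_cons,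
    List.sum_nil, insert_empty_eq] at h1
  rw [h1]; ring

set_option synthInstance.maxSize 4096 in
theorem G'_not_se : ¬ StronglyEquistable G' := by
  intro h
  obtain ⟨φ, _, hφ, hT⟩ := h {L 0, L 1, L 2, L 3, R} (Finset.insert_nonempty _ _)
    (by rw [isMaxStable_iff]; decide +kernel) 1 le_rfl
  have a1 := three φ hφ (L 0) (L 8) (L 10) (by decide +kernel) (by decide +kernel)
    (by decide +kernel) (by decide +kernel)
  have a2 := three φ hφ (L 1) (L 12) (L 14) (by decide +kernel) (by decide +kernel)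
    (by decide +kernel) (by decide +kernel)
  have a3 := three φ hφ (L 2) (L 9) (L 13) (by decide +kernel) (by decide +kernel)
    (by decide +kernel) (by decide +kernel)
  have a4 := three φ hφ R (L 11) (L 15) (by decide +kernel) (by decide +kernel)
    (by decide +kernel) (by decide +kernel)
  have b1 := three φ hφ (L 4) (L 8) (L 9) (by decide +kernel) (by decide +kernel)
    (by decide +kernel) (by decide +kernel)
  have b2 := three φ hφ (L 5) (L 10) (L 11) (by decide +kernel) (by decide +kernel)
    (by decide +kernel) (by decide +kernel)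
  have b3 := three φ hφ (L 6) (L 12) (L 13) (by decide +kernel) (by decide +kernel)
    (by decide +kernel) (by decide +kernel)
  have b4 := three φ hφ (L 7) (L 14) (L 15) (by decide +kernel) (by decide +kernel)
    (by decide +kernel) (by decide +kernel)
  have a5 := hφ {L 3, L 4, L 5, L 6, L 7} (by rw [isMaxStable_iff]; decide +kernel)
  rw [five φ _ _ _ _ _ (by decide +kernel)] at a5 hT
  apply hT
  linarith

theorem result : ∃ (n m : ℕ) (G : SimpleGraph (Fin n)) (H : SimpleGraph (Fin m)) (v : Fin n),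
    0 < m ∧ StronglyEquistable G ∧ StronglyEquistable H ∧ ¬ StronglyEquistable (subst G v H) :=
  ⟨28, 2, G, ⊤, 2, by norm_num, G_se, H_se, G'_not_se⟩

end Pool.Agent.Results.MP_89a31a_co.NotClosed
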